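import Pool.Agent.MP_3ee8cb_gt.SLN.Link
import Pool.Agent.MP_3ee8cb_gt.SL3.Defs
import Pool.Agent.MP_3ee8cb_gt.D3IN.RSca
import Pool.Agent.MP_3ee8cb_gt.TB.RGAM

/-! A pinched target and an arbitrary source: scaling and the statement layer. -/

namespace Pool.Agent.MP_3ee8cb_gt.SLN

open DN (Dim dm)
open Pool.Agent.MP_3ee8cb_gt.SL

theorem chr_ex {n : ℕ} {h : CR.Met n} (r : CR.Riem h) : ∃ C : TB.Chr n, TB.IsChr h C := by
  have k : ∀ x, ∃ c : E n →L[ℝ] E n →L[ℝ] E n, ∀ u v w, 2 * h x (c u v) w =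
      fderiv ℝ h x u v w + fderiv ℝ h x v u w - fderiv ℝ h x w u v := fun x => by
    obtain ⟨e, he⟩ := TB.gam_equiv r x
    generalize fderiv ℝ h x = D
    have h1 : ∀ a : E n →L[ℝ] ℝ, h x (e.symm a) = a := fun a => by
      rw [← he]
      exact e.apply_symm_apply a
    let B : E n →ₗ[ℝ] E n →ₗ[ℝ] E n := LinearMap.mk₂ ℝ
      (fun u v => e.symm ((1 / 2 : ℝ) • (D u v + D v u - (D.flip u).flip v)))
      (fun u u' v => by
        rw [← map_add]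
        congr 1
        ext w
        simp
        ring)
      (fun c u v => by
        rw [← map_smul]
        congr 1
        ext w
        simp
        ring)
      (fun u v v' => by
        rw [← map_add]
        congr 1
        ext w
        simp
        ring)
      (fun c u v => by
        rw [← map_smul]
        congr 1
        ext w
        simp
        ring)
    refine ⟨LinearMap.toContinuousLinearMap
      ((LinearMap.toContinuousLinearMap : (E n →ₗ[ℝ] E n) ≃ₗ[ℝ] _).toLinearMap ∘ₗ B),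
      fun u v w => ?_⟩
    change 2 * h x (e.symm ((1 / 2 : ℝ) • (D u v + D v u - (D.flip u).flip v))) w = _
    rw [h1]
    simp
  choose C hC using k
  exact ⟨C, hC⟩

section

variable [Dim]

/-- Rigidity of a target with curvature in `[-(1 + δ), -1]`. -/
def MainZ (δ : ℝ) : Prop := DN.On2 fun g h _ C' _ _ _ _ _ _ _ _ ρ _ =>
  DN.Pin h C' 1 (1 + δ) → DN.Iso g h ρ

theorem scaleZ {δ : ℝ} (A : MainZ δ) : DN.On2 fun g h _ C' _ _ _ _ _ _ _ _ ρ _ => ∀ a b : ℝ,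
    0 < a → b ^ 2 < (1 + δ) * a ^ 2 → DN.Pin h C' (a ^ 2) (b ^ 2) → DN.Iso g h ρ := by
  intro g h C C' Γ Λ _ _ _ _ Φ Ψ ρ F qg qh c c' dΓ dΛ cj a b ha hb K
  have hc : a⁻¹ ≠ 0 := inv_ne_zero ha.ne'
  have n0 : 0 < dm := Nat.succ_pos _
  have a2 : 0 < a ^ 2 := by positivity
  obtain ⟨f, f1, f2, f3, f4⟩ := A _ _ C C' Γ Λ _ _ ρ (D3IN.Sca.sc hc F)
    (LV.all_qp n0 (CR.scale_riem hc qg.rp.riem) (CR.scale_deck _ qg.rp.deck)
      (CR.scale_flow hc qg.rp.flow))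
    (LV.all_qp n0 (CR.scale_riem hc qh.rp.riem) (CR.scale_deck _ qh.rp.deck)
      (CR.scale_flow hc qh.rp.flow))
    (D3IN.Sca.chr _ c) (D3IN.Sca.chr _ c') dΓ dΛ (D3IN.Sca.cj hc cj) fun x u v => by
      obtain ⟨h1, h2⟩ := K x u v
      have q := sub_nonneg.2 (TB.mod_cs qh.rp.riem x u v)
      simp only [D3IN.Sca.app]
      generalize h x (TB.Rm C' x u v v) u = r at h1 h2 ⊢
      have e : a ^ 2 * h x u u * (a ^ 2 * h x v v) - (a ^ 2 * h x u v) ^ 2 =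
          a ^ 2 * (a ^ 2 * (h x u u * h x v v - h x u v ^ 2)) := by ring
      rw [e]
      generalize h x u u * h x v v - h x u v ^ 2 = Q at h1 h2 q ⊢
      have h3 := mul_le_mul_of_nonneg_right hb.le q
      constructor
      · nlinarith [mul_le_mul_of_nonneg_left h1 a2.le, mul_le_mul_of_nonneg_left h3 a2.le]
      · nlinarith [mul_le_mul_of_nonneg_left h2 a2.le]
  refine ⟨f, f1, f2, fun x u v => ?_, f4⟩
  have h5 := f3 x u v
  rw [D3IN.Sca.app, D3IN.Sca.app] at h5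
  exact mul_left_cancel₀ a2.ne' h5

theorem finZ {δ : ℝ} (A : MainZ δ)
    (g h : Met dm) (Γ Λ : Type) [Group Γ] [Group Λ] [MulAction Γ (E dm)] [MulAction Λ (E dm)]
    (Φ : ℝ → UT g → UT g) (Ψ : ℝ → UT h → UT h) (f : UM g Γ ≃ₜ UM h Λ) (hg : Riem g)
    (hh : Riem h) (dg : Deck g Γ) (dh : Deck h Λ) (sg : SL3.Smooth g Γ) (sh : SL3.Smooth h Λ)
    (fg : IsFlow g Φ) (fh : IsFlow h Ψ) (hf : Conj Φ Ψ f) (hN : SL3.Pinched h (1 + δ)) :
    SL3.Isometric g h Γ Λ := by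
  obtain ⟨g, rfl, rg⟩ := link_riem hg
  obtain ⟨h, rfl, rh⟩ := link_riem hh
  have n0 : 3 ≤ dm := Nat.le_add_left 3 _
  have qg := LV.all_qp (by omega) rg (link_deck dg) (link_flow rg fg)
  have qh := LV.all_qp (by omega) rh (link_deck dh) (link_flow rh fh)
  obtain ⟨ρ, F, cj, -⟩ := LV.lift2 dm g h Γ Λ Φ Ψ f n0 qg.rp qh.rp hf
  obtain ⟨a, b, ha, hb, C', c', K⟩ := link_pin rh hN
  obtain ⟨C, c⟩ := chr_ex rg
  obtain ⟨G, hG⟩ := scaleZ A g h C C' Γ Λ Φ Ψ ρ F qg qh c c' (sg.act 2) (sh.act 2) cj a b ha hb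
    fun x u v => (K x u v).symm
  exact ⟨G, ρ, hG⟩

end

/-- A pinched target, every dimension. -/
theorem allZ (A : ∀ [Dim], ∃ δ, 0 < δ ∧ MainZ δ)
    (n : ℕ) (hn : 3 ≤ n) : ∃ k : ℝ, 1 < k ∧ ∀ (g h : Met n) (Γ Λ : Type) [Group Γ] [Group Λ]
      [MulAction Γ (E n)] [MulAction Λ (E n)] (Φ : ℝ → UT g → UT g) (Ψ : ℝ → UT h → UT h)
      (f : UM g Γ ≃ₜ UM h Λ), Riem g → Riem h → Deck g Γ → Deck h Λ → SL3.Smooth g Γ →
      SL3.Smooth h Λ → IsFlow g Φ → IsFlow h Ψ → Conj Φ Ψ f →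
      SL3.Pinched h k → SL3.Isometric g h Γ Λ := by
  obtain ⟨j, rfl⟩ : ∃ j, n = j + 3 := ⟨n - 3, by omega⟩
  obtain ⟨δ, hδ, A⟩ := @A ⟨j⟩
  exact ⟨1 + δ, by linarith, @finZ ⟨j⟩ δ A⟩

end Pool.Agent.MP_3ee8cb_gt.SLN
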