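import Pool.Agent.MP_3ee8cb_gt.SLN.Defs
import Pool.Agent.MP_3ee8cb_gt.SL.LinkL
import Pool.Agent.MP_3ee8cb_gt.LV.All
import Pool.Agent.MP_3ee8cb_gt.DN.Spec
import Pool.Agent.MP_3ee8cb_gt.DNIN.Spec

/-! From the statement layer to the working definitions. -/

namespace Pool.Agent.MP_3ee8cb_gt.SLN

open DN (Dim dm)

variable [Dim]

open Pool.Agent.MP_3ee8cb_gt.SL Filter Topology

variable {n : ℕ}

theorem link_pin {h : CR.Met n} (hh : CR.Riem h) {k : ℝ} (H : Pinched (pl h) k) :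
    ∃ a b : ℝ, 0 < a ∧ b ^ 2 < k * a ^ 2 ∧ DNIN.Pinch h a b := by
  obtain ⟨a, b, ha, hb, C, c, K⟩ := H
  obtain ⟨C', c', -⟩ := link_curv hh (a := a) ⟨C, c, fun x u v => (K x u v).2⟩
  have e : C = fun x u v => C' x u v := by
    funext x u v
    refine TB.gam_inj hh x ?_
    ext1 w
    have e1 := c x u v w
    rw [link_dR hh, link_dR hh, link_dR hh, ← c' x u v w] at e1
    simp only [pl] at e1
    linarith
  subst e
  refine ⟨a, b, ha, hb, C', c', fun x u v => ?_⟩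
  have d : DifferentiableAt ℝ C' x :=
    ((TB.gam n h C' hh c').smooth.differentiable (by norm_num)).differentiableAt
  have := K x u v
  unfold Rm dE at this
  rw [TB.gam_fderiv_apply d, TB.gam_fderiv_apply d] at this
  exact this.symm

theorem link_sm {g : CR.Met dm} {Γ : Type} [Group Γ] [MulAction Γ (E dm)]
    {Φ : ℝ → UT (pl g) → UT (pl g)} (q : LV.QP g Γ Φ) (s : Smooth (pl g) Γ) : DNIN.SM g Γ Φ := by
  refine ⟨q, contDiff_infty.2 fun k => ?_, fun γ => contDiff_infty.2 fun k => s.act k γ⟩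
  rw [contDiff_clm_apply_iff]
  intro u
  rw [contDiff_clm_apply_iff]
  exact s.met k u

theorem link_c1 {g h : CR.Met n} {Γ Λ : Type} [Group Γ] [Group Λ] [MulAction Γ (E n)]
    [MulAction Λ (E n)] (d : CR.Deck h Λ) (s : ∀ γ : Λ, ContDiff ℝ 2 fun x : E n => γ • x)
    {f : UM (pl g) Γ → UM (pl h) Λ} {F : CR.UT g → CR.UT h} (cF : Continuous F)
    (hF : ∀ p, f (Quot.mk _ p) = Quot.mk _ (F p)) (H : C1Q f) : DNIN.C1F F := by
  intro p
  obtain ⟨φ, c, e⟩ := H p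
  let := CR.lift_act d
  have := d.disc
  have : ContinuousConstSMul Λ (E n) := ⟨fun γ => (d.smooth γ).continuous⟩
  have e' : ∀ᶠ q in 𝓝 p, ∃ γ : Λ, CR.tm γ (F q).1 = φ q.1 := by
    filter_upwards [e] with q ⟨w, h1, h2⟩
    obtain ⟨γ, hγ⟩ := (CR.lift_cov d).apply_eq_iff_mem_orbit.1 (h2.symm.trans (hF q))
    exact ⟨γ, (congrArg Subtype.val hγ).trans h1⟩
  obtain ⟨γ, hγ⟩ := e'.self_of_nhds
  obtain ⟨U, hU, u⟩ := ProperlyDiscontinuousSMul.exists_nhds_image_smul_eq_self Λ (φ p.1).1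
  have t1 : ∀ᶠ q in 𝓝 p, (φ q.1).1 ∈ U :=
    (c.continuousAt.comp continuous_subtype_val.continuousAt).fst hU
  have t2 : ∀ᶠ q in 𝓝 p, γ • (F q).1.1 ∈ U := by
    have : Continuous fun q => γ • (F q).1.1 := by fun_prop
    exact this.continuousAt (by rwa [← hγ] at hU)
  have c2 : ContDiff ℝ 1 (CR.tm γ⁻¹ : E n × E n → E n × E n) :=
    (((s γ⁻¹).of_le (by norm_num)).comp contDiff_fst).prodMk
      ((((s γ⁻¹).fderiv_right (m := 1) (by norm_num)).comp contDiff_fst).clm_apply contDiff_snd)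
  refine ⟨fun z => CR.tm γ⁻¹ (φ z), c2.contDiffAt.comp _ c, ?_⟩
  filter_upwards [e', t1, t2] with q ⟨δ, hδ⟩ h1 h2
  have : δ * γ⁻¹ = 1 := d.free _ _ (u _ ⟨(φ q.1).1, ⟨_, h2, by
    simp only [mul_smul, inv_smul_smul, ← hδ]; rfl⟩, h1⟩)
  rw [← hδ, mul_inv_eq_one.1 this, ← CR.lift_tm_mul d, inv_mul_cancel, CR.lift_tm_one]

theorem link_symm {g h : CR.Met n} {Γ Λ : Type} [Group Γ] [Group Λ] [MulAction Γ (E n)]
    [MulAction Λ (E n)] {Φ : ℝ → CR.UT g → CR.UT g} {Ψ : ℝ → CR.UT h → CR.UT h} {ρ : Γ ≃* Λ}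
    {F : CR.UT g ≃ₜ CR.UT h} (d : CR.Deck g Γ) (c : LV.CJ g h Φ Ψ ρ F) :
    LV.CJ h g Ψ Φ ρ.symm F.symm := by
  refine ⟨fun t p => F.injective ?_, fun γ p q e => ?_⟩
  · rw [c.flow, F.apply_symm_apply, F.apply_symm_apply]
  · have := c.equi (ρ.symm γ) (F.symm p) ⟨CR.tm (ρ.symm γ) (F.symm p).1,
      (d.iso _ _ _ _).trans (F.symm p).2⟩ rfl
    rw [F.apply_symm_apply, ρ.apply_symm_apply, ← e] at this
    rw [← Subtype.ext this, F.symm_apply_apply]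

theorem link_le0 {g : CR.Met n} (hg : CR.Riem g) {a b : ℝ} (H : DNIN.Pinch g a b) :
    TB.CurvLe g 0 := by
  obtain ⟨C, c, K⟩ := H
  refine ⟨C, c, fun x u v => (K x u v).1.trans ?_⟩
  have := mul_nonneg (sq_nonneg a) (sub_nonneg.2 (TB.mod_cs hg x u v))
  nlinarith

/-- The theorem in frames gives the theorem for smooth manifolds. -/
theorem link_mainA (A : DN.MainA) (a : ℝ) (ha : 0 < a) : DNIN.MainA a := by
  intro g h Γ Λ _ _ _ _ Φ Ψ ρ F sg sh cj b hb k0 ⟨C', c', K⟩ c1 c2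
  obtain ⟨C, c, -⟩ := id k0
  exact A g h C C' Γ Λ Φ Ψ ρ F sg.qp sh.qp c c'
    (fun γ => contDiff_infty.1 (sg.act γ) 2)
    (fun γ => contDiff_infty.1 (sh.act γ) 2) cj a (b ^ 2) ha hb k0
    (fun x u v => (K x u v).symm) c1 c2

theorem link_mainB (B : DN.MainB) (a : ℝ) (ha : 0 < a) : DNIN.PartB a := by
  intro g h Γ Λ _ _ _ _ Φ Ψ ρ F sg sh cj b a' b' ha' hb hb' ⟨C, c, K⟩ ⟨C', c', K'⟩
  exact B g h C C' Γ Λ Φ Ψ ρ F sg.qp sh.qp c c'
    (fun γ => contDiff_infty.1 (sg.act γ) 2)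
    (fun γ => contDiff_infty.1 (sh.act γ) 2) cj a' (b' ^ 2) a (b ^ 2)
    (contDiff_infty.1 sg.sm 3) (contDiff_infty.1 sh.sm 3) ha' hb'
    (fun x u v => (K x u v).symm) ha hb fun x u v => (K' x u v).symm

/-- A statement about a conjugacy of geodesic flows of smooth closed manifolds. -/
def OnS (P : ∀ (g h : Met dm) (Γ Λ : Type) [Group Γ] [Group Λ] [MulAction Γ (E dm)]
    [MulAction Λ (E dm)] (_ : UM g Γ ≃ₜ UM h Λ), Prop) : Prop :=
  ∀ (g h : Met dm) (Γ Λ : Type) [Group Γ] [Group Λ] [MulAction Γ (E dm)] [MulAction Λ (E dm)]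
    (Φ : ℝ → UT g → UT g) (Ψ : ℝ → UT h → UT h) (f : UM g Γ ≃ₜ UM h Λ), Riem g → Riem h →
    Deck g Γ → Deck h Λ → Smooth g Γ → Smooth h Λ → IsFlow g Φ → IsFlow h Ψ → Conj Φ Ψ f →
    Pinched h 3 → P g h Γ Λ f → Isometric g h Γ Λ

theorem finA (A : DN.MainA) :
    OnS fun g _ _ _ _ _ _ _ f => CurvLe g 0 ∧ C1Q f ∧ C1Q f.symm := by
  intro g h Γ Λ _ _ _ _ Φ Ψ f hg hh dg dh sg sh fg fh hf hN ⟨k0, c1, c2⟩
  obtain ⟨g, rfl, rg⟩ := link_riem hg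
  obtain ⟨h, rfl, rh⟩ := link_riem hh
  have qg := LV.all_qp (by norm_num) rg (link_deck dg) (link_flow rg fg)
  have qh := LV.all_qp (by norm_num) rh (link_deck dh) (link_flow rh fh)
  obtain ⟨ρ, F, cj, hF⟩ := LV.lift2 dm g h Γ Λ Φ Ψ f (Nat.le_add_left 3 _) qg.rp qh.rp hf
  obtain ⟨a, b, ha, hb, K⟩ := link_pin rh hN
  obtain ⟨G, hG⟩ := link_mainA A a ha g h Γ Λ Φ Ψ ρ F (link_sm qg sg) (link_sm qh sh) cj b hb
    (link_curv rg k0) K (link_c1 (link_deck dh) (sh.act 2) F.continuous hF c1)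
    (link_c1 (link_deck dg) (sg.act 2) F.symm.continuous (fun w => by
      rw [Homeomorph.symm_apply_eq]
      exact ((hF _).trans (by rw [F.apply_symm_apply]; rfl)).symm) c2)
  exact ⟨G, ρ, hG⟩

theorem finB (A : DN.MainA) (B : ∀ a, 0 < a → DNIN.PartB a) :
    OnS fun g _ _ _ _ _ _ _ _ => Pinched g 4 := by
  intro g h Γ Λ _ _ _ _ Φ Ψ f hg hh dg dh sg sh fg fh hf hN hM
  obtain ⟨g, rfl, rg⟩ := link_riem hg
  obtain ⟨h, rfl, rh⟩ := link_riem hh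
  have qg := LV.all_qp (by norm_num) rg (link_deck dg) (link_flow rg fg)
  have qh := LV.all_qp (by norm_num) rh (link_deck dh) (link_flow rh fh)
  obtain ⟨ρ, F, cj, -⟩ := LV.lift2 dm g h Γ Λ Φ Ψ f (Nat.le_add_left 3 _) qg.rp qh.rp hf
  obtain ⟨a, b, ha, hb, K⟩ := link_pin rh hN
  obtain ⟨a', b', ha', hb', K'⟩ := link_pin rg hM
  have hb4 : b ^ 2 < 4 * a ^ 2 := by nlinarith [sq_nonneg a]
  obtain ⟨G, hG⟩ := link_mainA A a ha g h Γ Λ Φ Ψ ρ F (link_sm qg sg) (link_sm qh sh) cj b hb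
    (link_le0 rg K') K
    (B a ha g h Γ Λ Φ Ψ ρ F (link_sm qg sg) (link_sm qh sh) cj b a' b' ha' hb4 hb' K' K)
    (B a' ha' h g Λ Γ Ψ Φ ρ.symm F.symm (link_sm qh sh) (link_sm qg sg)
      (link_symm (link_deck dg) cj) b' a b ha hb' hb4 K K')
  exact ⟨G, ρ, hG⟩

end Pool.Agent.MP_3ee8cb_gt.SLN
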