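import Pool.Agent.MP_3ee8cb_gt.SLN.Link
import Pool.Agent.MP_3ee8cb_gt.SL3.Defs
import Pool.Agent.MP_3ee8cb_gt.DN.Spec2

/-! From the theorems in frames to the statements in every dimension. -/

namespace Pool.Agent.MP_3ee8cb_gt.SLN

open DN (Dim dm)
open Pool.Agent.MP_3ee8cb_gt.SL

section

variable [Dim]

theorem link_mainN {δ : ℝ} (A : DN.MainN δ) : DNIN.On3 fun g h _ _ _ _ _ _ ρ F => ∀ a b : ℝ,
    0 < a → b ^ 2 < (1 + δ) * a ^ 2 → TB.CurvLe g 0 → DNIN.Pinch h a b → DNIN.C1F F →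
      DNIN.C1F F.symm → DNIN.Iso g h ρ := by
  intro g h Γ Λ _ _ _ _ Φ Ψ ρ F sg sh cj a b ha hb k0 ⟨C', c', K⟩ c1 c2
  obtain ⟨C, c, -⟩ := id k0
  exact A g h C C' Γ Λ Φ Ψ ρ F sg.qp sh.qp c c'
    (fun γ => contDiff_infty.1 (sg.act γ) 2)
    (fun γ => contDiff_infty.1 (sh.act γ) 2) cj a (b ^ 2) ha hb.le k0
    (fun x u v => (K x u v).symm) c1 c2

theorem finB' {δ : ℝ} (A : DN.MainN δ) (B : ∀ a, 0 < a → DNIN.PartB a)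
    (g h : Met dm) (Γ Λ : Type) [Group Γ] [Group Λ] [MulAction Γ (E dm)] [MulAction Λ (E dm)]
    (Φ : ℝ → UT g → UT g) (Ψ : ℝ → UT h → UT h) (f : UM g Γ ≃ₜ UM h Λ) (hg : Riem g)
    (hh : Riem h) (dg : Deck g Γ) (dh : Deck h Λ) (sg : SL3.Smooth g Γ) (sh : SL3.Smooth h Λ)
    (fg : IsFlow g Φ) (fh : IsFlow h Ψ) (hf : Conj Φ Ψ f) (hM : SL3.Pinched g 4)
    (hN : SL3.Pinched h (min (1 + δ) 4)) : SL3.Isometric g h Γ Λ := by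
  replace sg : Smooth g Γ := ⟨sg.met, sg.act⟩
  replace sh : Smooth h Λ := ⟨sh.met, sh.act⟩
  obtain ⟨g, rfl, rg⟩ := link_riem hg
  obtain ⟨h, rfl, rh⟩ := link_riem hh
  have n0 : 3 ≤ dm := Nat.le_add_left 3 _
  have qg := LV.all_qp (by omega) rg (link_deck dg) (link_flow rg fg)
  have qh := LV.all_qp (by omega) rh (link_deck dh) (link_flow rh fh)
  obtain ⟨ρ, F, cj, -⟩ := LV.lift2 dm g h Γ Λ Φ Ψ f n0 qg.rp qh.rp hf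
  obtain ⟨a, b, ha, hb, K⟩ := link_pin rh hN
  obtain ⟨a', b', ha', hb', K'⟩ := link_pin rg hM
  have hb4 : b ^ 2 < 4 * a ^ 2 :=
    hb.trans_le (mul_le_mul_of_nonneg_right (min_le_right _ _) (sq_nonneg a))
  have hb1 : b ^ 2 < (1 + δ) * a ^ 2 :=
    hb.trans_le (mul_le_mul_of_nonneg_right (min_le_left _ _) (sq_nonneg a))
  obtain ⟨G, hG⟩ := link_mainN A g h Γ Λ Φ Ψ ρ F (link_sm qg sg) (link_sm qh sh) cj a b ha hb1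
    (link_le0 rg K') K
    (B a ha g h Γ Λ Φ Ψ ρ F (link_sm qg sg) (link_sm qh sh) cj b a' b' ha' hb4 hb' K' K)
    (B a' ha' h g Λ Γ Ψ Φ ρ.symm F.symm (link_sm qh sh) (link_sm qg sg)
      (link_symm (link_deck dg) cj) b' a b ha hb' hb4 K K')
  exact ⟨G, ρ, hG⟩

theorem finA' {δ : ℝ} (A : DN.MainN δ)
    (g h : Met dm) (Γ Λ : Type) [Group Γ] [Group Λ] [MulAction Γ (E dm)] [MulAction Λ (E dm)]
    (Φ : ℝ → UT g → UT g) (Ψ : ℝ → UT h → UT h) (f : UM g Γ ≃ₜ UM h Λ) (hg : Riem g)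
    (hh : Riem h) (dg : Deck g Γ) (dh : Deck h Λ) (sg : SL3.Smooth g Γ) (sh : SL3.Smooth h Λ)
    (fg : IsFlow g Φ) (fh : IsFlow h Ψ) (hf : Conj Φ Ψ f) (k0 : CurvLe g 0)
    (hN : SL3.Pinched h (1 + δ)) (c1 : SL3.C1Q f) (c2 : SL3.C1Q f.symm) :
    SL3.Isometric g h Γ Λ := by
  replace sg : Smooth g Γ := ⟨sg.met, sg.act⟩
  replace sh : Smooth h Λ := ⟨sh.met, sh.act⟩
  obtain ⟨g, rfl, rg⟩ := link_riem hg
  obtain ⟨h, rfl, rh⟩ := link_riem hh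
  have n0 : 3 ≤ dm := Nat.le_add_left 3 _
  have qg := LV.all_qp (by omega) rg (link_deck dg) (link_flow rg fg)
  have qh := LV.all_qp (by omega) rh (link_deck dh) (link_flow rh fh)
  obtain ⟨ρ, F, cj, hF⟩ := LV.lift2 dm g h Γ Λ Φ Ψ f n0 qg.rp qh.rp hf
  obtain ⟨a, b, ha, hb, K⟩ := link_pin rh hN
  obtain ⟨G, hG⟩ := link_mainN A g h Γ Λ Φ Ψ ρ F (link_sm qg sg) (link_sm qh sh) cj a b ha hb
    (link_curv rg k0) K (link_c1 (link_deck dh) (sh.act 2) F.continuous hF c1)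
    (link_c1 (link_deck dg) (sg.act 2) F.symm.continuous (fun w => by
      rw [Homeomorph.symm_apply_eq]
      exact ((hF _).trans (by rw [F.apply_symm_apply]; rfl)).symm) c2)
  exact ⟨G, ρ, hG⟩

end

/-- Topological conjugacies, every dimension. -/
theorem allB (A : ∀ [Dim], ∃ δ, 0 < δ ∧ DN.MainN δ) (B : ∀ [Dim] (a : ℝ), 0 < a → DNIN.PartB a)
    (n : ℕ) (hn : 3 ≤ n) : ∃ k : ℝ, 1 < k ∧ ∀ (g h : Met n) (Γ Λ : Type) [Group Γ] [Group Λ]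
      [MulAction Γ (E n)] [MulAction Λ (E n)] (Φ : ℝ → UT g → UT g) (Ψ : ℝ → UT h → UT h)
      (f : UM g Γ ≃ₜ UM h Λ), Riem g → Riem h → Deck g Γ → Deck h Λ → SL3.Smooth g Γ →
      SL3.Smooth h Λ → IsFlow g Φ → IsFlow h Ψ → Conj Φ Ψ f → SL3.Pinched g 4 →
      SL3.Pinched h k → SL3.Isometric g h Γ Λ := by
  obtain ⟨j, rfl⟩ : ∃ j, n = j + 3 := ⟨n - 3, by omega⟩
  obtain ⟨δ, hδ, A⟩ := @A ⟨j⟩
  exact ⟨min (1 + δ) 4, lt_min (by linarith) (by norm_num), @finB' ⟨j⟩ δ A (@B ⟨j⟩)⟩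

/-- Conjugacies of class `C¹`, every dimension. -/
theorem allA (A : ∀ [Dim], ∃ δ, 0 < δ ∧ DN.MainN δ)
    (n : ℕ) (hn : 3 ≤ n) : ∃ k : ℝ, 1 < k ∧ ∀ (g h : Met n) (Γ Λ : Type) [Group Γ] [Group Λ]
      [MulAction Γ (E n)] [MulAction Λ (E n)] (Φ : ℝ → UT g → UT g) (Ψ : ℝ → UT h → UT h)
      (f : UM g Γ ≃ₜ UM h Λ), Riem g → Riem h → Deck g Γ → Deck h Λ → SL3.Smooth g Γ →
      SL3.Smooth h Λ → IsFlow g Φ → IsFlow h Ψ → Conj Φ Ψ f → CurvLe g 0 →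
      SL3.Pinched h k → SL3.C1Q f → SL3.C1Q f.symm → SL3.Isometric g h Γ Λ := by
  obtain ⟨j, rfl⟩ : ∃ j, n = j + 3 := ⟨n - 3, by omega⟩
  obtain ⟨δ, hδ, A⟩ := @A ⟨j⟩
  exact ⟨1 + δ, by linarith, @finA' ⟨j⟩ δ A⟩

end Pool.Agent.MP_3ee8cb_gt.SLN
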