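import Pool.Agent.MP_3ee8cb_gt.SLN.Z

/-! An explicit pinching constant: the statement layer. -/

namespace Pool.Agent.MP_3ee8cb_gt.SLN

open DN (Dim dm)
open Pool.Agent.MP_3ee8cb_gt.SL

theorem allK (k : ℕ → ℝ) (A : ∀ [Dim], MainZ (k dm - 1)) (n : ℕ) (hn : 3 ≤ n) (g h : Met n)
    (Γ Λ : Type) [Group Γ] [Group Λ] [MulAction Γ (E n)] [MulAction Λ (E n)]
    (Φ : ℝ → UT g → UT g) (Ψ : ℝ → UT h → UT h) (f : UM g Γ ≃ₜ UM h Λ) (hg : Riem g)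
    (hh : Riem h) (dg : Deck g Γ) (dh : Deck h Λ) (sg : SL3.Smooth g Γ) (sh : SL3.Smooth h Λ)
    (fg : IsFlow g Φ) (fh : IsFlow h Ψ) (hf : Conj Φ Ψ f) (hN : SL3.Pinched h (k n)) :
    SL3.Isometric g h Γ Λ := by
  obtain ⟨j, rfl⟩ : ∃ j, n = j + 3 := ⟨n - 3, by omega⟩
  exact @finZ ⟨j⟩ _ (@A ⟨j⟩) g h Γ Λ _ _ _ _ Φ Ψ f hg hh dg dh sg sh fg fh hf
    (by rwa [add_sub_cancel])

end Pool.Agent.MP_3ee8cb_gt.SLN
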